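import Pool.Agent.H51.T4.Most
import Pool.Agent.H30.T4.Most3

/-!
Project TM4 (MP_b6022c_nt), row MOST.
-/

namespace Pool.Agent.H51.T4

open Pool.Agent.H9.TC Pool.Agent.H20.T4 Pool.Agent.H39.T4

/-- (MOST). -/
theorem most (hNB : NBStmt) (hPT : PTStmt) (hB2 : B2Stmt) (hB3 : B3Stmt) (hB5 : B5Stmt)
    (hA : AVGStmt) : MOSTStmt :=
  most_asm (c1 hNB hA) (most2 hPT hA) (Pool.Agent.H30.T4.most3 hB2 hB3 hB5 hA)

end Pool.Agent.H51.T4
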