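import Pool.Agent.H51.T4.Most2

/-!
Project TM4 (MP_b6022c_nt), row MOST: assembly of the three clauses.
-/

namespace Pool.Agent.H51.T4

open Finset Pool.Agent.H9.TC Pool.Agent.H20.T4 Pool.Agent.H39.T4

/-- Clause 3 of MOST (row of helper30, `Pool.Agent.H30.T4.Most3Stmt`). -/
def Most3Stmt : Prop :=
  ∀ (q1 c Cf kk Kn CR : ℕ) (ε1 ε : ℝ), 1 ≤ q1 → 1 ≤ c → 2000 ≤ CR → 0 < ε1 → 0 < ε →
    ∀ d e : Fin q1 → ℤ, (∀ i, |d i| ≤ Cf) → ∀ L g9 : ℕ, 1 ≤ L → ∃ w0 : ℕ, ∀ w ≥ w0,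
    ∀ ν a β p v1 K1 K2 : ℕ, a + w = ν → β + 3 * (CR * w) = ν → 10 * (CR * w) ≤ ν →
    w = C1 (q1 * 2 ^ kk) * p → K1 ≤ Kn → K2 ≤ Kn → CR * w + 2000 * w ≤ v1 + K1 * p →
    v1 + K1 * p ≤ CR * w + 2100 * w →
    v1 + K1 * p + L + (2 * (q1 * 2 ^ kk) + 4) * p + K2 * p = a →
    ∀ Dd : ℕ → ℕ, (∀ b, Dd b ≤ 2 ^ (CR * w)) →
    (cnt (2 ^ a) (fun n0 => ¬ ((cnt (2 ^ (18 * w)) (fun x => ¬ Gb (q1 * 2 ^ kk) p L g9 v1 K1 K2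
      (400 * w) (72 * w) (18 * w) c (Dd (n0 / 2 ^ β)) d e
        ((n0 : ℤ) + (Dd (n0 / 2 ^ β) : ℕ) * x)) : ℝ) ≤ ε1 * 2 ^ (18 * w))) : ℝ) ≤ ε * 2 ^ a

theorem most_asm (h1 : C1Stmt) (h2 : Most2Stmt) (h3 : Most3Stmt) : MOSTStmt := by
  intro q1 c Cf kk Kn C' CR ε1 ε hq1 hc hkk hCR hε1 hε d e f g' hd
  have hε3 : 0 < ε / 3 := by positivity
  obtain ⟨g1, hg1⟩ := h1 q1 c kk C' CR ε1 (ε / 3) hc hCR hε1 hε3 d e f g'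
  refine ⟨g1 + 1, ?_⟩
  intro g hg L g9 hL
  obtain ⟨w1, hw1⟩ := hg1 g (by omega)
  obtain ⟨w2, hw2⟩ := h2 q1 c kk Kn CR ε1 (ε / 3) hq1 hc hCR hε1 hε3 d e f g (by omega) L g9 hL
  obtain ⟨w3, hw3⟩ := h3 q1 c Cf kk Kn CR ε1 (ε / 3) hq1 hc hCR hε1 hε3 d e hd L g9 hL
  refine ⟨w1 + w2 + w3, ?_⟩
  intro w hw ν a β p v1 K1 K2 M τ haν hβ hν hwp hK1 hK2 hv1 hv1' huf huf' ha hτ hτ' hM1 hM Dd hD
  have r1 := hw1 w (by omega) ν a β M haν hβ hν hM1 hM Dd hD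
  have r2 := hw2 w (by omega) ν a β p v1 K1 K2 M τ haν hβ hν hwp hK1 hK2 hv1 hv1' huf huf' ha
    hτ hτ' hM1 hM Dd hD
  have r3 := hw3 w (by omega) ν a β p v1 K1 K2 haν hβ hν hwp hK1 hK2 huf huf' ha Dd hD
  set Q1 : ℕ → Prop := fun n0 => ¬ NearGood g M c kk w a (3 * ν + C') (Dd (n0 / 2 ^ β)) ε1
        d e f g' n0 with hQ1
  set Q2 : ℕ → Prop := fun n0 => ¬ PtGood (q1 * 2 ^ kk) p L g g9 v1 K1 K2 M τ c w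
        (Dd (n0 / 2 ^ β)) ε1 d e f n0 with hQ2
  set Q3 : ℕ → Prop := fun n0 => ¬ ((cnt (2 ^ (18 * w)) (fun x => ¬ Gb (q1 * 2 ^ kk) p L g9 v1
      K1 K2 (400 * w) (72 * w) (18 * w) c (Dd (n0 / 2 ^ β)) d e
        ((n0 : ℤ) + (Dd (n0 / 2 ^ β) : ℕ) * x)) : ℝ) ≤ ε1 * 2 ^ (18 * w)) with hQ3
  have hsub : cnt (2 ^ a) (fun n0 => ¬ CellGood (q1 * 2 ^ kk) p L g g9 v1 K1 K2 M τ c kk w a
        (3 * ν + C') (Dd (n0 / 2 ^ β)) ε1 d e f g' n0) ≤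
      cnt (2 ^ a) (fun n0 => Q1 n0 ∨ Q2 n0 ∨ Q3 n0) := by
    refine cnt_mono fun n0 _ h => ?_
    by_contra hcon
    push Not at hcon
    obtain ⟨c1, c2, c3⟩ := hcon
    apply h
    simp only [hQ1, not_not] at c1
    simp only [hQ2, not_not] at c2
    simp only [hQ3, not_not] at c3
    exact ⟨c1, c2, c3⟩
  have hor : cnt (2 ^ a) (fun n0 => Q1 n0 ∨ Q2 n0 ∨ Q3 n0) ≤
      cnt (2 ^ a) Q1 + (cnt (2 ^ a) Q2 + cnt (2 ^ a) Q3) :=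
    (cnt_or (2 ^ a) Q1 (fun n0 => Q2 n0 ∨ Q3 n0)).trans
      (Nat.add_le_add_left (cnt_or (2 ^ a) Q2 Q3) _)
  have hfin : (cnt (2 ^ a) (fun n0 => ¬ CellGood (q1 * 2 ^ kk) p L g g9 v1 K1 K2 M τ c kk w a
        (3 * ν + C') (Dd (n0 / 2 ^ β)) ε1 d e f g' n0) : ℝ) ≤
      (cnt (2 ^ a) Q1 : ℝ) + ((cnt (2 ^ a) Q2 : ℝ) + (cnt (2 ^ a) Q3 : ℝ)) := by
    exact_mod_cast hsub.trans hor
  refine hfin.trans ?_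
  have : ε * 2 ^ a = ε / 3 * 2 ^ a + (ε / 3 * 2 ^ a + ε / 3 * 2 ^ a) := by ring
  rw [this]
  exact add_le_add r1 (add_le_add r2 r3)

end Pool.Agent.H51.T4
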