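import Pool.Agent.H39.T4.MostNear

/-!
Project TM4 (MP_b6022c_nt), row MOST, clause 2: in most cells most points have the point
properties `Pt`.
-/

namespace Pool.Agent.H51.T4

open Finset Pool.Agent.H9.TC Pool.Agent.H20.T4 Pool.Agent.H39.T4

/-- Second conjunct of `CellGood`. -/
def PtGood {q1 : ℕ} (q p L g g9 v1 K1 K2 M τ c w D : ℕ) (ε : ℝ) (d e f : Fin q1 → ℤ)
    (n0 : ℤ) : Prop :=
  ∀ i, (cnt2 (2 ^ (400 * w + 1)) (2 ^ (18 * w + 1))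
      (fun s x => ¬ Pt q p L g g9 v1 K1 K2 M τ c (d i) (e i) (f i) (n0 + s + D * x)) : ℝ)
      ≤ ε * (2 ^ (400 * w) * 2 ^ (18 * w))

/-- Clause 2 of MOST. -/
def Most2Stmt : Prop :=
  ∀ (q1 c kk Kn CR : ℕ) (ε1 ε : ℝ), 1 ≤ q1 → 1 ≤ c → 2000 ≤ CR → 0 < ε1 →
    0 < ε → ∀ d e f : Fin q1 → ℤ, ∀ g ≥ 1, ∀ L g9 : ℕ,
    1 ≤ L → ∃ w0 : ℕ, ∀ w ≥ w0, ∀ ν a β p v1 K1 K2 M τ : ℕ, a + w = ν →
    β + 3 * (CR * w) = ν → 10 * (CR * w) ≤ ν → w = C1 (q1 * 2 ^ kk) * p →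
    K1 ≤ Kn → K2 ≤ Kn →
    (20 * (q1 * 2 ^ kk) + 16) * p ≤ v1 → v1 ≤ (20 * (q1 * 2 ^ kk) + 17) * p →
    CR * w + 2000 * w ≤ v1 + K1 * p → v1 + K1 * p ≤ CR * w + 2100 * w →
    v1 + K1 * p + L + (2 * (q1 * 2 ^ kk) + 4) * p + K2 * p = a →
    (q1 * 2 ^ kk) * (2 * (q1 * 2 ^ kk) + 5) * p < τ →
    τ ≤ (q1 * 2 ^ kk) * (2 * (q1 * 2 ^ kk) + 5) * p + 1 →
    2 ^ (w - 1) ≤ M → M ≤ 2 ^ w → ∀ Dd : ℕ → ℕ, (∀ b, Dd b ≤ 2 ^ (CR * w)) →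
      (cnt (2 ^ a) (fun n0 => ¬ PtGood (q1 * 2 ^ kk) p L g g9 v1 K1 K2 M τ c w
        (Dd (n0 / 2 ^ β)) ε1 d e f n0) : ℝ) ≤ ε * 2 ^ a

/-- One polynomial. -/
theorem pt_one (hA : AVGStmt) {T : ℕ → Prop} {ν a β w CR : ℕ} {Dd : ℕ → ℕ} {ε1 e1 : ℝ}
    (_hε1 : 0 < ε1) (hw : 1 ≤ w) (hCR : 2000 ≤ CR) (haν : a + w = ν)
    (hβ : β + 3 * (CR * w) = ν) (hν : 10 * (CR * w) ≤ ν)
    (hD : ∀ b, Dd b ≤ 2 ^ (CR * w)) (hT : (cnt (2 ^ a) T : ℝ) ≤ e1 * 2 ^ a)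
    (he1 : 1 ≤ e1 * 2 ^ w) :
    (cnt (2 ^ a) (fun n0 => ¬ ((cnt2 (2 ^ (400 * w + 1)) (2 ^ (18 * w + 1))
      (fun s x => T (n0 + s + Dd (n0 / 2 ^ β) * x)) : ℝ) ≤
        ε1 * (2 ^ (400 * w) * 2 ^ (18 * w)))) : ℝ) * ε1 ≤ 8 * e1 * 2 ^ a := by
  have hCw : 2000 * w ≤ CR * w := Nat.mul_le_mul_right w hCR
  have hβa : β ≤ a := by omega
  have hR : ∀ b, 2 ^ (400 * w + 1) + 2 ^ (18 * w + 1) * Dd b ≤
      2 ^ (CR * w + 400 * w + 2) := by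
    intro b
    have h1 : 2 ^ (18 * w + 1) * Dd b ≤ 2 ^ (18 * w + 1) * 2 ^ (CR * w) :=
      Nat.mul_le_mul_left _ (hD b)
    have h2 : 2 ^ (18 * w + 1) * 2 ^ (CR * w) ≤ 2 ^ (CR * w + 400 * w + 1) := by
      rw [← pow_add]
      exact Nat.pow_le_pow_right (by norm_num) (by omega)
    have h3 : 2 ^ (400 * w + 1) ≤ 2 ^ (CR * w + 400 * w + 1) :=
      Nat.pow_le_pow_right (by norm_num) (by omega)
    have h4 : 2 ^ (CR * w + 400 * w + 2) = 2 * 2 ^ (CR * w + 400 * w + 1) := by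
      rw [← pow_succ']
    omega
  have he0 : 0 < e1 := by
    by_contra h
    push Not at h
    have : e1 * 2 ^ w ≤ 0 := mul_nonpos_of_nonpos_of_nonneg h (by positivity)
    linarith
  have h3 := hA a β (2 ^ (400 * w + 1)) (2 ^ (18 * w + 1)) _ Dd (fun _ y => T y) hβa hR
  have h4 : ∑ b ∈ range (2 ^ (a - β)), cnt (2 ^ β) (fun y => T (b * 2 ^ β + y)) =
      cnt (2 ^ a) T := by
    have h5 := cnt_blocks (2 ^ (a - β)) (2 ^ β) T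
    rw [← pow_add, Nat.sub_add_cancel hβa] at h5
    exact h5
  have ht : ((∑ n0 ∈ range (2 ^ a), cnt2 (2 ^ (400 * w + 1)) (2 ^ (18 * w + 1))
      (fun s x => T (n0 + s + Dd (n0 / 2 ^ β) * x)) : ℕ) : ℝ) ≤
      ((2 ^ (400 * w + 1) : ℕ) : ℝ) * ((2 ^ (18 * w + 1) : ℕ) : ℝ) *
        ((cnt (2 ^ a) T : ℝ) + 2 ^ (a - β) * ((2 ^ (CR * w + 400 * w + 2) : ℕ) : ℝ)) := by
    refine h3.trans (le_of_eq ?_)
    rw [Finset.sum_add_distrib, Finset.sum_const, Finset.card_range, nsmul_eq_mul,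
      ← Nat.cast_sum, h4]
    push_cast
    ring
  have hb : (2 : ℝ) ^ (a - β) * ((2 ^ (CR * w + 400 * w + 2) : ℕ) : ℝ) ≤ e1 * 2 ^ a := by
    have h1 : 2 ^ (a - β) * 2 ^ (CR * w + 400 * w + 2) * 2 ^ w ≤ 2 ^ a := by
      calc 2 ^ (a - β) * 2 ^ (CR * w + 400 * w + 2) * 2 ^ w
          = 2 ^ ((a - β) + (CR * w + 400 * w + 2) + w) := by
            rw [← pow_add, ← pow_add]
        _ ≤ 2 ^ a := Nat.pow_le_pow_right (by norm_num) (by omega)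
    have h2 : (2 : ℝ) ^ (a - β) * ((2 ^ (CR * w + 400 * w + 2) : ℕ) : ℝ) * 2 ^ w ≤
        2 ^ a := by
      exact_mod_cast h1
    have h3 : (0 : ℝ) ≤ (2 : ℝ) ^ (a - β) * ((2 ^ (CR * w + 400 * w + 2) : ℕ) : ℝ) := by
      positivity
    calc (2 : ℝ) ^ (a - β) * ((2 ^ (CR * w + 400 * w + 2) : ℕ) : ℝ)
        ≤ (2 : ℝ) ^ (a - β) * ((2 ^ (CR * w + 400 * w + 2) : ℕ) : ℝ) * (e1 * 2 ^ w) :=
          le_mul_of_one_le_right h3 he1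
      _ = e1 * ((2 : ℝ) ^ (a - β) * ((2 ^ (CR * w + 400 * w + 2) : ℕ) : ℝ) * 2 ^ w) := by
          ring
      _ ≤ e1 * 2 ^ a := mul_le_mul_of_nonneg_left h2 he0.le
  set c0 : ℝ := ε1 * (2 ^ (400 * w) * 2 ^ (18 * w)) with hc0
  have hmk := cnt_markov (M := 2 ^ a)
    (P := fun n0 => ¬ ((cnt2 (2 ^ (400 * w + 1)) (2 ^ (18 * w + 1))
      (fun s x => T (n0 + s + Dd (n0 / 2 ^ β) * x)) : ℝ) ≤ c0))
    (f := fun n0 => (cnt2 (2 ^ (400 * w + 1)) (2 ^ (18 * w + 1))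
      (fun s x => T (n0 + s + Dd (n0 / 2 ^ β) * x)) : ℝ)) (c := c0)
    (fun m _ => Nat.cast_nonneg _) (fun m _ h => (not_le.mp h).le)
  rw [← Nat.cast_sum] at hmk
  have h1 := hmk.trans ht
  set X : ℝ := (cnt (2 ^ a) (fun n0 => ¬ ((cnt2 (2 ^ (400 * w + 1)) (2 ^ (18 * w + 1))
      (fun s x => T (n0 + s + Dd (n0 / 2 ^ β) * x)) : ℝ) ≤ c0)) : ℝ) with hX
  have hK : (0 : ℝ) < 2 ^ (400 * w) * 2 ^ (18 * w) := by positivity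
  have h2 : (2 ^ (400 * w) * 2 ^ (18 * w)) * (X * ε1) ≤
      (2 ^ (400 * w) * 2 ^ (18 * w)) * (8 * e1 * 2 ^ a) := by
    have e : (((2 ^ (400 * w + 1) : ℕ) : ℝ) * ((2 ^ (18 * w + 1) : ℕ) : ℝ)) =
        (2 ^ (400 * w) * 2 ^ (18 * w)) * 4 := by
      push_cast
      ring
    rw [e] at h1
    have hpos : (0 : ℝ) ≤ (2 ^ (400 * w) * 2 ^ (18 * w)) * 4 := by positivity
    calc (2 ^ (400 * w) * 2 ^ (18 * w)) * (X * ε1) = c0 * X := by rw [hc0]; ring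
      _ ≤ (2 ^ (400 * w) * 2 ^ (18 * w)) * 4 * ((cnt (2 ^ a) T : ℝ) +
          2 ^ (a - β) * ((2 ^ (CR * w + 400 * w + 2) : ℕ) : ℝ)) := h1
      _ ≤ (2 ^ (400 * w) * 2 ^ (18 * w)) * 4 * (e1 * 2 ^ a + e1 * 2 ^ a) :=
          mul_le_mul_of_nonneg_left (add_le_add hT hb) hpos
      _ = (2 ^ (400 * w) * 2 ^ (18 * w)) * (8 * e1 * 2 ^ a) := by ring
  exact le_of_mul_le_mul_left h2 hK

theorem most2 (hPT : PTStmt) (hA : AVGStmt) : Most2Stmt := by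
  intro q1 c kk Kn CR ε1 ε hq1 hc hCR hε1 hε d e f g hg L g9 hL
  set q : ℕ := q1 * 2 ^ kk with hq
  have hq0 : 1 ≤ q := Nat.mul_pos hq1 (by positivity)
  set e1 : ℝ := ε1 * ε / (8 * (q1 + 1)) with he1
  have he1pos : 0 < e1 := by positivity
  obtain ⟨p0, hp0⟩ := hPT q c g L g9 Kn e1 hq0 hc hg hL he1pos
  obtain ⟨N0, hN0⟩ : ∃ N0 : ℕ, ∀ w ≥ N0, 1 ≤ e1 * 2 ^ w := by
    obtain ⟨N0, hN0⟩ := pow_unbounded_of_one_lt (1 / e1) (by norm_num : (1 : ℝ) < 2)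
    refine ⟨N0, fun w hw => ?_⟩
    have h1 : (2 : ℝ) ^ N0 ≤ 2 ^ w := pow_le_pow_right₀ (by norm_num) hw
    have h2 : 1 / e1 ≤ 2 ^ w := (hN0.le).trans h1
    rw [div_le_iff₀ he1pos] at h2
    linarith
  refine ⟨C1 q * (p0 + 1) + N0 + L + 1, ?_⟩
  intro w hw ν a β p v1 K1 K2 M τ haν hβ hν hwp hK1 hK2 hv1 hv1' huf huf' ha hτ hτ' hM1 hM Dd hD
  have hC1pos : 0 < C1 q := by unfold C1; omega
  have hpp : p0 + 1 ≤ p := by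
    have h1 : C1 q * (p0 + 1) ≤ C1 q * p := by
      rw [← hwp]; omega
    exact Nat.le_of_mul_le_mul_left h1 hC1pos
  have hCw : 2000 * w ≤ CR * w := Nat.mul_le_mul_right w hCR
  have hw1 : 1 ≤ w := by omega
  have hwL : L ≤ w := by omega
  -- linear forms
  have e1' : w = 6 * (q * q * p) + 30 * (q * p) + 20 * p := by rw [hwp]; unfold C1; ring
  have e2 : q * (2 * q + 5) * p = 2 * (q * q * p) + 5 * (q * p) := by ring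
  have e3 : (2 * q + 4) * p = 2 * (q * p) + 4 * p := by ring
  have e4 : (20 * q + 16) * p = 20 * (q * p) + 16 * p := by ring
  have e5 : (20 * q + 17) * p = 20 * (q * p) + 17 * p := by ring
  have f1 : p ≤ q * p := Nat.le_mul_of_pos_left _ hq0
  have f2 : q * p ≤ q * q * p := Nat.mul_le_mul_right p (Nat.le_mul_of_pos_left q hq0)
  rw [e4] at hv1
  rw [e5] at hv1'
  rw [e3] at ha
  rw [e2] at hτ hτ'
  set A1 := q * q * p with hA1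
  set A2 := q * p with hA2
  set X := CR * w with hX
  have hK1p : (12 * q + 12) * p ≤ K1 * p := by
    have : (12 * q + 12) * p = 12 * A2 + 12 * p := by rw [hA2]; ring
    rw [this]
    omega
  have hK1' : 12 * q + 12 ≤ K1 := Nat.le_of_mul_le_mul_right hK1p (by omega)
  have hMp : 2 ^ p ≤ M := le_trans (Nat.pow_le_pow_right (by norm_num) (by omega)) hM1
  have hpt : ∀ i, (cnt (2 ^ a) (fun n => ¬ Pt q p L g g9 v1 K1 K2 M τ c (d i) (e i) (f i) n) : ℝ)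
      ≤ e1 * 2 ^ a := by
    intro i
    refine hp0 p (by omega) v1 K1 K2 M w τ a hK1 hK2 (by omega) hK1' hMp hM (by omega)
      (by omega) ?_ ?_ (by omega) (d i) (e i) (f i)
    · rw [e3]; omega
    · rw [e3]; omega
  have hone : ∀ i : Fin q1,
      (cnt (2 ^ a) (fun n0 => ¬ ((cnt2 (2 ^ (400 * w + 1)) (2 ^ (18 * w + 1))
        (fun s x => ¬ Pt q p L g g9 v1 K1 K2 M τ c (d i) (e i) (f i)
          ((n0 : ℤ) + s + (Dd (n0 / 2 ^ β) : ℕ) * x)) : ℝ) ≤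
        ε1 * (2 ^ (400 * w) * 2 ^ (18 * w)))) : ℝ) ≤ ε / (q1 + 1) * 2 ^ a := by
    intro i
    have h2 := pt_one hA (T := fun n => ¬ Pt q p L g g9 v1 K1 K2 M τ c (d i) (e i) (f i) n)
      hε1 hw1 hCR haν hβ hν hD (hpt i) (hN0 w (by omega))
    push_cast at h2
    have h3 : ε / (q1 + 1) * 2 ^ a * ε1 = 8 * e1 * 2 ^ a := by
      rw [he1]
      field_simp
    rw [← h3] at h2
    exact le_of_mul_le_mul_right h2 hε1
  have hU : cnt (2 ^ a) (fun n0 => ¬ PtGood q p L g g9 v1 K1 K2 M τ c w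
        (Dd (n0 / 2 ^ β)) ε1 d e f n0) ≤ ∑ i : Fin q1, cnt (2 ^ a) (fun n0 =>
        ¬ ((cnt2 (2 ^ (400 * w + 1)) (2 ^ (18 * w + 1))
        (fun s x => ¬ Pt q p L g g9 v1 K1 K2 M τ c (d i) (e i) (f i)
          ((n0 : ℤ) + s + (Dd (n0 / 2 ^ β) : ℕ) * x)) : ℝ) ≤
        ε1 * (2 ^ (400 * w) * 2 ^ (18 * w)))) := by
    refine le_trans ?_ (cnt_exists_fin (n := q1) (2 ^ a) _)
    refine cnt_mono fun n0 _ h => ?_
    unfold PtGood at h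
    exact not_forall.mp h
  calc (cnt (2 ^ a) (fun n0 => ¬ PtGood q p L g g9 v1 K1 K2 M τ c w
        (Dd (n0 / 2 ^ β)) ε1 d e f n0) : ℝ)
      ≤ ∑ i : Fin q1, (cnt (2 ^ a) (fun n0 =>
        ¬ ((cnt2 (2 ^ (400 * w + 1)) (2 ^ (18 * w + 1))
        (fun s x => ¬ Pt q p L g g9 v1 K1 K2 M τ c (d i) (e i) (f i)
          ((n0 : ℤ) + s + (Dd (n0 / 2 ^ β) : ℕ) * x)) : ℝ) ≤
        ε1 * (2 ^ (400 * w) * 2 ^ (18 * w)))) : ℝ) := by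
        exact_mod_cast hU
    _ ≤ ∑ i : Fin q1, ε / (q1 + 1) * 2 ^ a :=
        Finset.sum_le_sum fun i _ => hone i
    _ = (q1 : ℝ) * (ε / (q1 + 1) * 2 ^ a) := by
        simp only [Finset.sum_const, Finset.card_univ, Fintype.card_fin, nsmul_eq_mul]
    _ ≤ ((q1 : ℝ) + 1) * (ε / (q1 + 1) * 2 ^ a) := by
        have : (0 : ℝ) ≤ ε / (q1 + 1) * 2 ^ a := by positivity
        refine mul_le_mul_of_nonneg_right ?_ this
        linarith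
    _ = ε * 2 ^ a := by
        field_simp

end Pool.Agent.H51.T4
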